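import Pool.Agent.K4H93.NB.Wenger

/-!
The graphs of Wenger on the set of all strings of a given length.
-/

set_option autoImplicit false

namespace Pool.Agent.K4H93.NB.Wen

open Finset

theorem bit (a b c : ZMod 2) : decide (a + b + c = 1) =
    xor (decide (a = 1)) (xor (decide (b = 1)) (decide (c = 1))) := by
  revert a b c
  decide

theorem exists_affine (k a : ℕ) (ha : 1 ≤ a) :
    ∃ G : SimpleGraph (Fin ((k + 1) * a + 1) → Bool),
      Nat.card G.edgeSet = 2 ^ ((k + 2) * a) ∧
      (∀ x, ∀ u ∈ G.neighborSet x, ∀ v ∈ G.neighborSet x, ∀ w ∈ G.neighborSet x,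
        (fun i => xor (u i) (xor (v i) (w i))) ∈ G.neighborSet x) ∧
      (1 ≤ k → (4 : ℕ∞) < G.egirth) ∧ (2 ≤ k → (6 : ℕ∞) < G.egirth) := by
  classical
  have ha0 : a ≠ 0 := by omega
  let F := GaloisField 2 a
  have : Fintype F := Fintype.ofFinite F
  have hF : Fintype.card F = 2 ^ a := by
    rw [← Nat.card_eq_fintype_card]
    exact GaloisField.card 2 a ha0
  have hrank : Module.finrank (ZMod 2) (Fin (k + 1) → F) =
      Module.finrank (ZMod 2) (Fin ((k + 1) * a) → ZMod 2) := by
    rw [Module.finrank_pi_fintype, Module.finrank_fin_fun]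
    simp only [sum_const, card_univ, Fintype.card_fin, smul_eq_mul]
    rw [GaloisField.finrank 2 ha0]
  let E : (Fin (k + 1) → F) ≃ₗ[ZMod 2] (Fin ((k + 1) * a) → ZMod 2) :=
    LinearEquiv.ofFinrankEq _ _ hrank
  let lab : ((Fin (k + 1) → F) × Bool) ≃ (Fin ((k + 1) * a + 1) → Bool) :=
    { toFun := fun x => Fin.cons x.2 fun i => decide (E x.1 i = 1)
      invFun := fun w => (E.symm fun i => if w i.succ then 1 else 0, w 0)
      left_inv := by
        rintro ⟨v, b⟩
        refine Prod.ext ?_ rfl
        simp only [Fin.cons_succ, decide_eq_true_eq]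
        rw [LinearEquiv.symm_apply_eq]
        funext i
        have : ∀ z : ZMod 2, (if z = 1 then (1 : ZMod 2) else 0) = z := by decide
        exact this _
      right_inv := by
        intro w
        funext i
        refine Fin.cases rfl (fun i => ?_) i
        simp only [Fin.cons_succ, LinearEquiv.apply_symm_apply]
        cases w i.succ <;> simp }
  have hlab : ∀ (u v w : Fin (k + 1) → F) (b : Bool),
      (fun i => xor (lab (u, b) i) (xor (lab (v, b) i) (lab (w, b) i))) =
        lab (u + v + w, b) := by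
    intro u v w b
    funext i
    refine Fin.cases ?_ (fun i => ?_) i
    · simp [lab]
    · simp only [lab, Equiv.coe_fn_mk, Fin.cons_succ, map_add, Pi.add_apply]
      rw [bit]
  refine ⟨(H F k).comap lab.symm, ?_, ?_, ?_, ?_⟩
  · rw [pow_mul', ← hF, ← card_H (F := F) (k := k)]
    exact Nat.card_congr (SimpleGraph.Iso.mapEdgeSet
      (⟨lab.symm, Iff.rfl⟩ : (H F k).comap lab.symm ≃g H F k))
  · intro x u hu v hv w hw
    rw [SimpleGraph.mem_neighborSet, SimpleGraph.comap_adj] at hu hv hw ⊢
    obtain ⟨⟨u, b⟩, rfl⟩ := lab.surjective u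
    obtain ⟨⟨v, c⟩, rfl⟩ := lab.surjective v
    obtain ⟨⟨w, d⟩, rfl⟩ := lab.surjective w
    rw [Equiv.symm_apply_apply] at hu hv hw
    have h1 := col_ne _ _ hu
    have h2 := col_ne _ _ hv
    have h3 := col_ne _ _ hw
    simp only at h1 h2 h3
    obtain rfl : b = c := by
      revert h1 h2
      cases (lab.symm x).2 <;> cases b <;> cases c <;> simp
    obtain rfl : b = d := by
      revert h1 h3
      cases (lab.symm x).2 <;> cases b <;> cases d <;> simp
    rw [hlab, Equiv.symm_apply_apply]
    exact affine_H _ u v w b hu hv hw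
  · intro hk
    obtain ⟨j, rfl⟩ : ∃ j, k = j + 1 := ⟨k - 1, by omega⟩
    refine girth_four _ (fun x => (lab.symm x).2) (fun x y h => col_ne _ _ h) ?_
    intro p l p' l' hp h1 h2 h3 h4
    rw [SimpleGraph.comap_adj] at h1 h2 h3 h4
    have c1 := col_ne _ _ h1
    have c2 := col_ne _ _ h2
    have c3 := col_ne _ _ h3
    have i1 : Inc (lab.symm p).1 (lab.symm l).1 := by
      rcases h1 with ⟨_, _, h⟩ | ⟨h, _, _⟩
      · exact h
      · rw [hp] at h
        exact absurd h (by simp)
    have hl : (lab.symm l).2 = true := by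
      rw [hp] at c1
      revert c1
      cases (lab.symm l).2 <;> simp
    have hp' : (lab.symm p').2 = false := by
      rw [hl] at c2
      revert c2
      cases (lab.symm p').2 <;> simp
    have hl' : (lab.symm l').2 = true := by
      rw [hp'] at c3
      revert c3
      cases (lab.symm l').2 <;> simp
    have i2 : Inc (lab.symm p').1 (lab.symm l).1 := by
      rcases h2 with ⟨h, _, _⟩ | ⟨_, _, h⟩
      · rw [hl] at h
        exact absurd h (by simp)
      · exact h
    have i3 : Inc (lab.symm p').1 (lab.symm l').1 := by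
      rcases h3 with ⟨_, _, h⟩ | ⟨h, _, _⟩
      · exact h
      · rw [hp'] at h
        exact absurd h (by simp)
    have i4 : Inc (lab.symm p).1 (lab.symm l').1 := by
      rcases h4 with ⟨h, _, _⟩ | ⟨_, _, h⟩
      · rw [hl'] at h
        exact absurd h (by simp)
      · exact h
    rcases four i1 i2 i3 i4 with h | h
    · left
      exact lab.symm.injective (Prod.ext h (hp.trans hp'.symm))
    · right
      exact lab.symm.injective (Prod.ext h (hl.trans hl'.symm))
  · intro hk
    obtain ⟨j, rfl⟩ : ∃ j, k = j + 2 := ⟨k - 2, by omega⟩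
    have fwd : ∀ x y, (lab.symm x).2 = false → (H F (j + 2)).Adj (lab.symm x) (lab.symm y) →
        (lab.symm y).2 = true ∧ Inc (lab.symm x).1 (lab.symm y).1 := by
      intro x y hx h
      rcases h with ⟨_, h2, h3⟩ | ⟨h1, _, _⟩
      · exact ⟨h2, h3⟩
      · rw [hx] at h1
        exact absurd h1 (by simp)
    have bwd : ∀ x y, (lab.symm x).2 = true → (H F (j + 2)).Adj (lab.symm x) (lab.symm y) →
        (lab.symm y).2 = false ∧ Inc (lab.symm y).1 (lab.symm x).1 := by
      intro x y hx h
      rcases h with ⟨h1, _, _⟩ | ⟨_, h2, h3⟩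
      · rw [hx] at h1
        exact absurd h1 (by simp)
      · exact ⟨h2, h3⟩
    refine girth_six _ (fun x => (lab.symm x).2) (fun x y h => col_ne _ _ h) ?_ ?_
    · intro p l p' l' hp h1 h2 h3 h4
      rw [SimpleGraph.comap_adj] at h1 h2 h3 h4
      obtain ⟨hl, i1⟩ := fwd _ _ hp h1
      obtain ⟨hp', i2⟩ := bwd _ _ hl h2
      obtain ⟨hl', i3⟩ := fwd _ _ hp' h3
      obtain ⟨_, i4⟩ := bwd _ _ hl' h4
      rcases four i1 i2 i3 i4 with h | h
      · left
        exact lab.symm.injective (Prod.ext h (hp.trans hp'.symm))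
      · right
        exact lab.symm.injective (Prod.ext h (hl.trans hl'.symm))
    · intro p l p' l' p'' l'' hp h1 h2 h3 h4 h5 h6
      rw [SimpleGraph.comap_adj] at h1 h2 h3 h4 h5 h6
      obtain ⟨hl, i1⟩ := fwd _ _ hp h1
      obtain ⟨hp', i2⟩ := bwd _ _ hl h2
      obtain ⟨hl', i3⟩ := fwd _ _ hp' h3
      obtain ⟨hp'', i4⟩ := bwd _ _ hl' h4
      obtain ⟨hl'', i5⟩ := fwd _ _ hp'' h5
      obtain ⟨_, i6⟩ := bwd _ _ hl'' h6
      rcases six i1 i2 i3 i4 i5 i6 with h | h | h
      · left
        exact lab.symm.injective (Prod.ext h (hp.trans hp'.symm))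
      · right
        left
        exact lab.symm.injective (Prod.ext h (hp.trans hp''.symm))
      · right
        right
        exact lab.symm.injective (Prod.ext h (hl.trans hl''.symm))

end Pool.Agent.K4H93.NB.Wen
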