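import Pool.Agent.K4H93.NB.Graph

/-!
The asymptotic form of the bound for graphs with tame neighbourhoods.
-/

set_option autoImplicit false

namespace Pool.Agent.K4H93.NB

open Finset Filter Topology

theorem N_le (r K m : ℕ) {l : ℝ} (hl0 : 0 < l) (hl1 : l ≤ 1) :
    (N (Fin m) r K : ℝ) ≤ (1 / l) ^ ((r - 1) * (m / (K + 1) + 1)) * (1 + l) ^ m := by
  obtain ⟨q, hq⟩ : ∃ q, q = (r - 1) * (m / (K + 1) + 1) := ⟨_, rfl⟩
  have h1 : ∑ Z : Finset (Fin m), l ^ Z.card = (1 + l) ^ m := by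
    have := Fin.sum_pow_mul_eq_add_pow (n := m) l 1
    simp only [one_pow, mul_one] at this
    rw [this, add_comm]
  have h2 : (N (Fin m) r K : ℝ) * l ^ q ≤ (1 + l) ^ m := by
    rw [← h1]
    unfold N
    rw [Fintype.card_fin, ← hq]
    calc ((small (Fin m) q).card : ℝ) * l ^ q = ∑ _Z ∈ small (Fin m) q, l ^ q := by
          rw [sum_const, nsmul_eq_mul]
      _ ≤ ∑ Z ∈ small (Fin m) q, l ^ Z.card := by
          refine sum_le_sum fun Z hZ => ?_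
          exact pow_le_pow_of_le_one hl0.le hl1 (mem_filter.mp hZ).2
      _ ≤ ∑ Z : Finset (Fin m), l ^ Z.card := by
          refine sum_le_sum_of_subset_of_nonneg (subset_univ _) fun Z _ _ => by positivity
  rw [← hq, one_div, inv_pow]
  have h3 : 0 < l ^ q := by positivity
  rw [← div_eq_inv_mul, le_div_iff₀ h3]
  exact h2

theorem asym (r u D : ℕ) (θ ε : ℝ) (hθ : 0 ≤ θ) (hε : 0 < ε) :
    ∃ K n₀ : ℕ, ∀ n m a : ℕ, n₀ ≤ n → n ≤ 2 ^ m → 2 ^ m ≤ D * n → (a : ℝ) ≤ θ * m →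
      (N (Fin m) r K : ℝ) ^ 2 * (2 ^ a * n + u * (m + 1) ^ (K * r) * 2 ^ m) ≤
        (n : ℝ) ^ (1 + θ + ε) := by
  obtain ⟨η, hη⟩ : ∃ η : ℝ, η = ε / 4 := ⟨_, rfl⟩
  have hη0 : 0 < η := by rw [hη]; linarith
  -- the parameter
  have hgt : (1 : ℝ) < (2 : ℝ) ^ (η / 4) := Real.one_lt_rpow (by norm_num) (by linarith)
  obtain ⟨l, hl⟩ : ∃ l : ℝ, l = min 1 ((2 : ℝ) ^ (η / 4) - 1) := ⟨_, rfl⟩
  have hl0 : 0 < l := by
    rw [hl]
    exact lt_min one_pos (by linarith)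
  have hl1 : l ≤ 1 := by rw [hl]; exact min_le_left _ _
  have hl2 : 1 + l ≤ (2 : ℝ) ^ (η / 4) := by
    have : l ≤ (2 : ℝ) ^ (η / 4) - 1 := by rw [hl]; exact min_le_right _ _
    linarith
  obtain ⟨A, hA⟩ : ∃ A : ℝ, A = 1 / l := ⟨_, rfl⟩
  have hA1 : 1 ≤ A := by
    rw [hA, le_div_iff₀ hl0]
    linarith
  have hA0 : 0 < A := by linarith
  have hlog2 : 0 < Real.log 2 := Real.log_pos (by norm_num)
  obtain ⟨K, hK⟩ := exists_nat_gt ((r - 1 : ℕ) * Real.log A / (η / 4 * Real.log 2))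
  have hK' : (r - 1 : ℕ) * Real.log A ≤ η / 4 * Real.log 2 * (K + 1) := by
    have h1 : 0 < η / 4 * Real.log 2 := by positivity
    rw [div_lt_iff₀ h1] at hK
    nlinarith
  -- the polynomial factor
  obtain ⟨C, hC⟩ : ∃ C : ℝ, C = (A ^ (r - 1)) ^ 2 * (1 + u) := ⟨_, rfl⟩
  have hC0 : 0 < C := by rw [hC]; positivity
  have hb : (1 : ℝ) < (2 : ℝ) ^ η := Real.one_lt_rpow (by norm_num) hη0
  have hb0 : (0 : ℝ) < (2 : ℝ) ^ η := by positivity
  have ht : Tendsto (fun m : ℕ => ((m + 1 : ℕ) : ℝ) ^ (K * r) / ((2 : ℝ) ^ η) ^ (m + 1)) atTop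
      (𝓝 0) :=
    (tendsto_pow_const_div_const_pow_of_one_lt (K * r) hb).comp (tendsto_add_atTop_nat 1)
  obtain ⟨m₀, hm₀⟩ := eventually_atTop.1 (ht.eventually_lt_const
    (show (0 : ℝ) < 1 / (C * (2 : ℝ) ^ η) by positivity))
  have ht2 := (tendsto_rpow_atTop (show 0 < 2 * η by linarith)).comp
    (tendsto_natCast_atTop_atTop (R := ℝ))
  obtain ⟨n₁, hn₁⟩ := eventually_atTop.1 (ht2.eventually_ge_atTop ((D : ℝ) ^ (1 + θ + 2 * η)))
  refine ⟨K, max (2 ^ m₀ + 1) n₁, fun n m a hn hnm hD ha => ?_⟩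
  have hnn : 2 ^ m₀ + 1 ≤ n := (le_max_left _ _).trans hn
  have hm : m₀ ≤ m := by
    by_contra hlt
    push Not at hlt
    have := Nat.pow_le_pow_right (by norm_num : 0 < 2) hlt.le
    omega
  have hn0 : (0 : ℝ) < n := by
    have : 0 < n := lt_of_lt_of_le (Nat.succ_pos _) hnn
    exact_mod_cast this
  obtain ⟨x, hx⟩ : ∃ x : ℝ, x = (2 : ℝ) ^ m := ⟨_, rfl⟩
  have hx0 : 0 < x := by rw [hx]; positivity
  have hx1 : 1 ≤ x := by rw [hx]; exact one_le_pow₀ (by norm_num)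
  have hnx : (n : ℝ) ≤ x := by rw [hx]; exact_mod_cast hnm
  have hxD : x ≤ D * n := by rw [hx]; exact_mod_cast hD
  have hpow : ∀ s : ℝ, ((2 : ℝ) ^ s) ^ m = x ^ s := by
    intro s
    rw [hx, ← Real.rpow_natCast, ← Real.rpow_natCast, ← Real.rpow_mul (by norm_num),
      ← Real.rpow_mul (by norm_num), mul_comm]
  -- the bound for N
  have e1 : (1 + l) ^ m ≤ x ^ (η / 4) := by
    rw [← hpow]
    gcongr
  have e2 : A ^ ((r - 1) * (m / (K + 1) + 1)) ≤ A ^ (r - 1) * x ^ (η / 4) := by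
    rw [mul_add, mul_one, pow_add, mul_comm]
    refine mul_le_mul_of_nonneg_left ?_ (by positivity)
    rw [← hpow, ← Real.exp_log (show 0 < A ^ ((r - 1) * (m / (K + 1))) by positivity),
      ← Real.exp_log (show 0 < ((2 : ℝ) ^ (η / 4)) ^ m by positivity)]
    refine Real.exp_le_exp.2 ?_
    rw [Real.log_pow, Real.log_pow, Real.log_rpow (by norm_num)]
    have h1 : ((m / (K + 1) : ℕ) : ℝ) * (K + 1) ≤ m := by
      have := Nat.div_mul_le_self m (K + 1)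
      exact_mod_cast this
    push_cast
    have h2 : (0 : ℝ) ≤ ((m / (K + 1) : ℕ) : ℝ) := Nat.cast_nonneg _
    calc ((r - 1 : ℕ) : ℝ) * ((m / (K + 1) : ℕ) : ℝ) * Real.log A
        = ((m / (K + 1) : ℕ) : ℝ) * (((r - 1 : ℕ) : ℝ) * Real.log A) := by ring
      _ ≤ ((m / (K + 1) : ℕ) : ℝ) * (η / 4 * Real.log 2 * (K + 1)) :=
          mul_le_mul_of_nonneg_left hK' h2
      _ = (η / 4 * Real.log 2) * (((m / (K + 1) : ℕ) : ℝ) * (K + 1)) := by ring
      _ ≤ (η / 4 * Real.log 2) * m := mul_le_mul_of_nonneg_left h1 (by positivity)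
      _ = _ := by ring
  have e3 : (N (Fin m) r K : ℝ) ≤ A ^ (r - 1) * x ^ (η / 2) := by
    have h1 := N_le r K m hl0 hl1
    rw [← hA] at h1
    refine h1.trans ((mul_le_mul e2 e1 (by positivity) (by positivity)).trans (le_of_eq ?_))
    rw [mul_assoc, ← Real.rpow_add hx0]
    congr 2
    ring
  have e4 : (N (Fin m) r K : ℝ) ^ 2 ≤ (A ^ (r - 1)) ^ 2 * x ^ η := by
    calc (N (Fin m) r K : ℝ) ^ 2 ≤ (A ^ (r - 1) * x ^ (η / 2)) ^ 2 := by gcongr
      _ = (A ^ (r - 1)) ^ 2 * x ^ η := by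
          rw [mul_pow]
          congr 1
          rw [← Real.rpow_natCast, ← Real.rpow_mul hx0.le]
          congr 1
          push_cast
          ring
  -- the polynomial factor
  have e5 : C * ((m : ℝ) + 1) ^ (K * r) ≤ x ^ η := by
    have h1 := hm₀ m hm
    rw [div_lt_div_iff₀ (by positivity) (by positivity), one_mul, pow_succ] at h1
    push_cast at h1
    rw [hpow] at h1
    have h2 : C * ((m : ℝ) + 1) ^ (K * r) * (2 : ℝ) ^ η < x ^ η * (2 : ℝ) ^ η := by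
      calc _ = ((m : ℝ) + 1) ^ (K * r) * (C * (2 : ℝ) ^ η) := by ring
        _ < _ := h1
    exact (lt_of_mul_lt_mul_right h2 hb0.le).le
  have e7 : (2 : ℝ) ^ a ≤ x ^ θ := by
    rw [hx, ← Real.rpow_natCast, ← Real.rpow_natCast, ← Real.rpow_mul (by norm_num)]
    refine Real.rpow_le_rpow_of_exponent_le (by norm_num) ?_
    linarith
  have hxθ : 1 ≤ x ^ θ := Real.one_le_rpow hx1 hθ
  have e6 : (2 : ℝ) ^ a * n + u * (m + 1) ^ (K * r) * 2 ^ m ≤
      (1 + u) * ((m : ℝ) + 1) ^ (K * r) * (x ^ θ * x) := by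
    rw [← hx]
    have h1 : (1 : ℝ) ≤ ((m : ℝ) + 1) ^ (K * r) :=
      one_le_pow₀ (by have : (0 : ℝ) ≤ m := Nat.cast_nonneg m; linarith)
    have h2 : (2 : ℝ) ^ a * n ≤ ((m : ℝ) + 1) ^ (K * r) * (x ^ θ * x) := by
      calc (2 : ℝ) ^ a * n ≤ x ^ θ * x := mul_le_mul e7 hnx hn0.le (by positivity)
        _ = 1 * (x ^ θ * x) := (one_mul _).symm
        _ ≤ _ := mul_le_mul_of_nonneg_right h1 (by positivity)
    have h3 : u * ((m : ℝ) + 1) ^ (K * r) * x ≤ u * ((m : ℝ) + 1) ^ (K * r) * (x ^ θ * x) := by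
      refine mul_le_mul_of_nonneg_left ?_ (by positivity)
      calc x = 1 * x := (one_mul _).symm
        _ ≤ _ := mul_le_mul_of_nonneg_right hxθ hx0.le
    calc (2 : ℝ) ^ a * n + u * (m + 1) ^ (K * r) * x
        ≤ ((m : ℝ) + 1) ^ (K * r) * (x ^ θ * x) + u * ((m : ℝ) + 1) ^ (K * r) * (x ^ θ * x) :=
          add_le_add h2 h3
      _ = _ := by ring
  calc (N (Fin m) r K : ℝ) ^ 2 * (2 ^ a * n + u * (m + 1) ^ (K * r) * 2 ^ m)
      ≤ ((A ^ (r - 1)) ^ 2 * x ^ η) * ((1 + u) * ((m : ℝ) + 1) ^ (K * r) * (x ^ θ * x)) :=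
        mul_le_mul e4 e6 (by positivity) (by positivity)
    _ = (C * ((m : ℝ) + 1) ^ (K * r)) * (x ^ η * (x ^ θ * x)) := by rw [hC]; ring
    _ ≤ x ^ η * (x ^ η * (x ^ θ * x)) := mul_le_mul_of_nonneg_right e5 (by positivity)
    _ = x ^ (1 + θ + 2 * η) := by
        rw [show (1 + θ + 2 * η) = η + (η + (θ + 1)) by ring, Real.rpow_add hx0,
          Real.rpow_add hx0, Real.rpow_add hx0, Real.rpow_one]
    _ ≤ (D * n) ^ (1 + θ + 2 * η) := Real.rpow_le_rpow hx0.le hxD (by linarith)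
    _ = (D : ℝ) ^ (1 + θ + 2 * η) * (n : ℝ) ^ (1 + θ + 2 * η) :=
        Real.mul_rpow (Nat.cast_nonneg D) hn0.le
    _ ≤ (n : ℝ) ^ (2 * η) * (n : ℝ) ^ (1 + θ + 2 * η) := by
        refine mul_le_mul_of_nonneg_right ?_ (by positivity)
        exact hn₁ n ((le_max_right _ _).trans hn)
    _ = (n : ℝ) ^ (1 + θ + ε) := by
        rw [← Real.rpow_add hn0]
        congr 1
        rw [hη]
        ring

/-- **Asymptotic bound.** -/
theorem graph_asym (r u D : ℕ) (θ ε : ℝ) (hr : 1 ≤ r) (hθ : 0 ≤ θ) (hε : 0 < ε) :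
    ∃ n₀ : ℕ, ∀ (n m L a : ℕ) (lab : Fin n → Fin m → Bool) (G : SimpleGraph (Fin n)), n₀ ≤ n →
      Function.Injective lab → 2 ^ m ≤ D * n → (a : ℝ) ≤ θ * m →
      (∀ x, TameUnion L a (lab '' G.neighborSet x)) →
      (completeBipartiteGraph (Fin r) (Fin u)).Free G →
      (Nat.card G.edgeSet : ℝ) ≤ L * (n : ℝ) ^ (1 + θ + ε) := by
  obtain ⟨K, n₀, h⟩ := asym r u D θ ε hθ hε
  refine ⟨n₀, fun n m L a lab G hn hlab hD ha hN hfree => ?_⟩
  have h1 := graph_bound m L a r u K (Fin n) lab G hr hlab hN hfree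
  rw [Fintype.card_fin] at h1
  have hnm : n ≤ 2 ^ m := by
    have := Fintype.card_le_of_injective lab hlab
    simpa using this
  have h2 : (Nat.card G.edgeSet : ℝ) ≤
      L * ((N (Fin m) r K : ℝ) ^ 2 * (2 ^ a * n + u * (m + 1) ^ (K * r) * 2 ^ m)) := by
    rw [← mul_assoc]
    exact_mod_cast h1
  exact h2.trans (mul_le_mul_of_nonneg_left (h n m a hn hnm hD ha) (Nat.cast_nonneg L))

/-- Dense graphs need many tame sets. -/
theorem graph_large (r u D : ℕ) (c δ θ β : ℝ) (hr : 1 ≤ r) (hc : 0 < c) (hθ : 0 ≤ θ)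
    (hδ : δ + θ < β) :
    ∃ n₀ : ℕ, ∀ (n m L a : ℕ) (lab : Fin n → Fin m → Bool) (G : SimpleGraph (Fin n)), n₀ ≤ n →
      Function.Injective lab → 2 ^ m ≤ D * n → (a : ℝ) ≤ θ * m →
      (∀ x, TameUnion L a (lab '' G.neighborSet x)) →
      (completeBipartiteGraph (Fin r) (Fin u)).Free G →
      c * (n : ℝ) ^ (1 + β) ≤ Nat.card G.edgeSet → (n : ℝ) ^ δ < L := by
  set ε : ℝ := (β - θ - δ) / 2 with hε
  have hε0 : 0 < ε := by rw [hε]; linarith
  obtain ⟨n₀, hn₀⟩ := graph_asym r u D θ ε hr hθ hε0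
  have ht2 := (tendsto_rpow_atTop hε0).comp (tendsto_natCast_atTop_atTop (R := ℝ))
  obtain ⟨n₁, hn₁⟩ := Filter.eventually_atTop.1 (ht2.eventually_gt_atTop (1 / c))
  refine ⟨max (max n₀ n₁) 1, ?_⟩
  intro n m L a lab G hn hlab hD ha hN hfree hE
  have hn0 : n₀ ≤ n := le_trans (le_trans (le_max_left _ _) (le_max_left _ _)) hn
  have hn1 : n₁ ≤ n := le_trans (le_trans (le_max_right _ _) (le_max_left _ _)) hn
  have hn2 : 1 ≤ n := le_trans (le_max_right _ _) hn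
  have hn' : (0 : ℝ) < n := by exact_mod_cast hn2
  have h1 := hE.trans (hn₀ n m L a lab G hn0 hlab hD ha hN hfree)
  have h3 : (n : ℝ) ^ (1 + β) = (n : ℝ) ^ δ * (n : ℝ) ^ ε * (n : ℝ) ^ (1 + θ + ε) := by
    rw [← Real.rpow_add hn', ← Real.rpow_add hn']; congr 1; rw [hε]; ring
  rw [h3, ← mul_assoc] at h1
  have h4 : c * ((n : ℝ) ^ δ * (n : ℝ) ^ ε) ≤ L := le_of_mul_le_mul_right h1 (by positivity)
  have h6 := hn₁ n hn1
  simp only [Function.comp] at h6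
  have h7 : 1 < c * (n : ℝ) ^ ε := by
    rw [div_lt_iff₀ hc] at h6
    linarith
  have h8 : 0 < (n : ℝ) ^ δ := by positivity
  nlinarith

end Pool.Agent.K4H93.NB
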