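import Mathlib

/-!
A family of sets closed under intersections is not much larger than the number of its members which have
several other members nearby.
-/

set_option autoImplicit false
set_option linter.unusedSectionVars false

namespace Pool.Agent.K4H93.NB

open Finset

variable {ι : Type*} [Fintype ι] [DecidableEq ι]

/-- the members of `S` which have at least `r` members of `S` (themselves included) at distance at most
`K` -/
def good (S : Finset (Finset ι)) (r K : ℕ) : Finset (Finset ι) :=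
  S.filter fun x => r ≤ (S.filter fun y => (symmDiff x y).card ≤ K).card

/-- the smallest member of `S` that contains `Z` -/
noncomputable def cl (S : Finset (Finset ι)) (Z : Finset ι) : Finset ι :=
  if h : (S.filter fun y => Z ⊆ y).Nonempty then (S.filter fun y => Z ⊆ y).inf' h id else ∅

theorem cl_mem {S : Finset (Finset ι)} (hS : ∀ x ∈ S, ∀ y ∈ S, x ∩ y ∈ S) {Z x : Finset ι}
    (hx : x ∈ S) (hZ : Z ⊆ x) : cl S Z ∈ S := by
  unfold cl
  have h : (S.filter fun y => Z ⊆ y).Nonempty := ⟨x, mem_filter.mpr ⟨hx, hZ⟩⟩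
  rw [dif_pos h]
  exact inf'_mem (↑S : Set (Finset ι)) (fun x hx y hy => hS x hx y hy) _ h id
    (fun i hi => (mem_filter.mp hi).1)

theorem cl_le {S : Finset (Finset ι)} {Z x : Finset ι} (hx : x ∈ S) (hZ : Z ⊆ x) :
    cl S Z ⊆ x := by
  unfold cl
  have h : (S.filter fun y => Z ⊆ y).Nonempty := ⟨x, mem_filter.mpr ⟨hx, hZ⟩⟩
  rw [dif_pos h]
  exact inf'_le id (mem_filter.mpr ⟨hx, hZ⟩)

theorem le_cl {S : Finset (Finset ι)} {Z x : Finset ι} (hx : x ∈ S) (hZ : Z ⊆ x) :
    Z ⊆ cl S Z := by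
  unfold cl
  have h : (S.filter fun y => Z ⊆ y).Nonempty := ⟨x, mem_filter.mpr ⟨hx, hZ⟩⟩
  rw [dif_pos h]
  exact le_inf' h id fun y hy => (mem_filter.mp hy).2

theorem cl_eq {S : Finset (Finset ι)} {x : Finset ι} (hx : x ∈ S) : cl S x = x :=
  (cl_le hx subset_rfl).antisymm (le_cl hx subset_rfl)

/-- adding a set to the generators -/
theorem cl_union {S : Finset (Finset ι)} (hS : ∀ x ∈ S, ∀ y ∈ S, x ∩ y ∈ S) {Z E x : Finset ι}
    (hx : x ∈ S) (hZ : Z ⊆ x) (hE : E ⊆ x) : cl S (cl S Z ∪ E) = cl S (Z ∪ E) := by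
  have h1 : cl S Z ⊆ x := cl_le hx hZ
  have h2 : Z ∪ E ⊆ x := union_subset hZ hE
  have h3 : cl S Z ∪ E ⊆ x := union_subset h1 hE
  apply Finset.Subset.antisymm
  · refine cl_le (cl_mem hS hx h2) ?_
    refine union_subset ?_ (subset_union_right.trans (le_cl hx h2))
    exact cl_le (cl_mem hS hx h2) (subset_union_left.trans (le_cl hx h2))
  · refine cl_le (cl_mem hS hx h3) ?_
    exact (union_subset_union_left (le_cl hx hZ)).trans (le_cl hx h3)

/-- a lower cover -/
theorem exists_cover {S : Finset (Finset ι)} (hS : ∀ x ∈ S, ∀ y ∈ S, x ∩ y ∈ S) {x : Finset ι}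
    (hx : x ∈ S) (hne : ∃ y ∈ S, y ⊂ x) : ∃ y ∈ S, y ⊂ x ∧ ∃ e ∈ x, cl S (y ∪ {e}) = x := by
  obtain ⟨y0, hy0, hy0x⟩ := hne
  obtain ⟨y, hy, hmax⟩ := exists_max_image (S.filter fun y => y ⊂ x) card
    ⟨y0, mem_filter.mpr ⟨hy0, hy0x⟩⟩
  rw [mem_filter] at hy
  obtain ⟨e, he, hey⟩ := exists_of_ssubset hy.2
  refine ⟨y, hy.1, hy.2, e, he, ?_⟩
  have hsub : y ∪ {e} ⊆ x := union_subset hy.2.subset (singleton_subset_iff.mpr he)
  by_contra hne
  have h1 : cl S (y ∪ {e}) ⊂ x := (cl_le hx hsub).ssubset_of_ne hne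
  have h2 := hmax _ (mem_filter.mpr ⟨cl_mem hS hx hsub, h1⟩)
  have h3 : y ⊂ cl S (y ∪ {e}) := by
    have h4 := le_cl hx hsub
    refine Finset.ssubset_iff_subset_ne.mpr ⟨subset_union_left.trans h4, fun h => hey ?_⟩
    rw [h]
    exact h4 (mem_union_right _ (mem_singleton_self e))
  exact absurd (card_lt_card h3) (by omega)

/-- going down `j` steps -/
theorem down {S : Finset (Finset ι)} (hS : ∀ x ∈ S, ∀ y ∈ S, x ∩ y ∈ S) {x : Finset ι}
    (hx : x ∈ S) : ∀ j : ℕ, ∃ y ∈ S, y ⊆ x ∧ ∃ E ⊆ x, E.card ≤ j ∧ cl S (y ∪ E) = x ∧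
      ((¬ ∃ z ∈ S, z ⊂ y) ∨ ∃ C ⊆ S, C.card = j + 1 ∧ ∀ z ∈ C, y ⊆ z ∧ z ⊆ x) := by
  intro j
  induction j with
  | zero =>
    refine ⟨x, hx, subset_rfl, ∅, empty_subset _, by simp, ?_, Or.inr ⟨{x}, ?_, by simp, ?_⟩⟩
    · rw [union_empty, cl_eq hx]
    · rwa [singleton_subset_iff]
    · intro z hz
      rw [mem_singleton] at hz
      rw [hz]
      exact ⟨subset_rfl, subset_rfl⟩
  | succ j ih =>
    obtain ⟨y, hy, hyx, E, hE, hEc, hcl, h⟩ := ih
    by_cases hmin : ∃ z ∈ S, z ⊂ y
    · rcases h with h | ⟨C, hC, hCc, hCz⟩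
      · exact absurd hmin h
      · obtain ⟨w, hw, hwy, e, he, hew⟩ := exists_cover hS hy hmin
        have hwe : w ∪ {e} ⊆ x := union_subset (hwy.subset.trans hyx)
          (singleton_subset_iff.mpr (hyx he))
        refine ⟨w, hw, hwy.subset.trans hyx, insert e E, insert_subset (hyx he) hE,
          (card_insert_le _ _).trans (by omega), ?_, Or.inr ⟨insert w C, insert_subset hw hC, ?_, ?_⟩⟩
        · have h1 := cl_union hS hx hwe hE
          rw [hew, hcl] at h1
          rw [h1]
          congr 1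
          ext a
          simp only [mem_union, mem_insert, mem_singleton]
          tauto
        · rw [card_insert_of_notMem, hCc]
          intro hwC
          exact absurd (hCz w hwC).1 (not_subset_of_ssubset hwy)
        · intro z hz
          rcases mem_insert.mp hz with rfl | hz
          · exact ⟨subset_rfl, hwy.subset.trans hyx⟩
          · exact ⟨hwy.subset.trans (hCz z hz).1, (hCz z hz).2⟩
    · exact ⟨y, hy, hyx, E, hE, hEc.trans (Nat.le_succ j), hcl, Or.inl hmin⟩

/-- every member is generated by a good member, or the bottom, and few points -/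
theorem generated {S : Finset (Finset ι)} (hS : ∀ x ∈ S, ∀ y ∈ S, x ∩ y ∈ S) (r K : ℕ)
    (hr : 1 ≤ r) : ∀ (n : ℕ) (x : Finset ι), x ∈ S → x.card ≤ n →
    ∃ u ∈ S, (u ∈ good S r K ∨ ¬ ∃ z ∈ S, z ⊂ u) ∧ ∃ E ⊆ x,
      E.card ≤ (r - 1) * (n / (K + 1) + 1) ∧ u ⊆ x ∧ cl S (u ∪ E) = x := by
  intro n
  induction n using Nat.strong_induction_on with
  | _ n ih =>
    intro x hx hxn
    by_cases hg : x ∈ good S r K
    · exact ⟨x, hx, Or.inl hg, ∅, empty_subset _, by simp, subset_rfl, by
        rw [union_empty, cl_eq hx]⟩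
    obtain ⟨y, hy, hyx, E, hE, hEc, hcl, h⟩ := down hS hx (r - 1)
    rcases h with h | ⟨C, hC, hCc, hCz⟩
    · refine ⟨y, hy, Or.inr h, E, hE, ?_, hyx, hcl⟩
      calc E.card ≤ (r - 1) * 1 := by omega
        _ ≤ (r - 1) * (n / (K + 1) + 1) := Nat.mul_le_mul_left _ (Nat.le_add_left 1 _)
    · -- `y` is far below `x`
      have hfar : y.card + (K + 1) ≤ x.card := by
        by_contra hcon
        push Not at hcon
        apply hg
        unfold good
        rw [mem_filter]
        refine ⟨hx, ?_⟩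
        have h1 : C ⊆ S.filter fun z => (symmDiff x z).card ≤ K := by
          intro z hz
          rw [mem_filter]
          refine ⟨hC hz, ?_⟩
          have h2 := hCz z hz
          have h3 : symmDiff x z = x \ z := by
            rw [symmDiff_def, sup_eq_union]
            have : z \ x = ∅ := sdiff_eq_empty_iff_subset.mpr h2.2
            rw [this, union_empty]
          rw [h3, card_sdiff_of_subset h2.2]
          have h4 := card_le_card h2.1
          omega
        have h2 := card_le_card h1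
        omega
      obtain ⟨u, hu, hu2, E', hE', hEc', huy, hcl'⟩ := ih (n - (K + 1)) (by omega) y hy (by omega)
      refine ⟨u, hu, hu2, E' ∪ E, union_subset (hE'.trans hyx) hE, ?_, huy.trans hyx, ?_⟩
      · have h5 : (n - (K + 1)) / (K + 1) + 1 = n / (K + 1) := by
          have h6 : K + 1 ≤ n := by omega
          rw [Nat.div_eq_sub_div (by omega) h6]
        calc (E' ∪ E).card ≤ E'.card + E.card := card_union_le _ _
          _ ≤ (r - 1) * ((n - (K + 1)) / (K + 1) + 1) + (r - 1) := Nat.add_le_add hEc' hEc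
          _ = (r - 1) * (n / (K + 1) + 1) := by rw [h5]; ring
      · have h6 := cl_union hS hx (union_subset (huy.trans hyx) (hE'.trans hyx)) hE
        rw [hcl', hcl] at h6
        rw [h6, union_assoc]

/-- the number of sets with at most `q` points -/
def small (ι : Type*) [Fintype ι] [DecidableEq ι] (q : ℕ) : Finset (Finset ι) :=
  univ.filter fun E => E.card ≤ q

/-- **Counting lemma.** -/
theorem card_closed {S : Finset (Finset ι)} (hS : ∀ x ∈ S, ∀ y ∈ S, x ∩ y ∈ S) (r K : ℕ)
    (hr : 1 ≤ r) : S.card ≤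
      (small ι ((r - 1) * (Fintype.card ι / (K + 1) + 1))).card * ((good S r K).card + 1) := by
  rcases S.eq_empty_or_nonempty with h0 | ⟨x0, hx0⟩
  · rw [h0]
    simp
  set b := cl S ∅ with hb
  have hbS : b ∈ S := cl_mem hS hx0 (empty_subset _)
  set q := (r - 1) * (Fintype.card ι / (K + 1) + 1) with hq
  have hsub : S ⊆ ((small ι q) ×ˢ (insert b (good S r K))).image fun p => cl S (p.2 ∪ p.1) := by
    intro x hx
    obtain ⟨u, hu, hu2, E, _, hEc, _, hcl⟩ := generated hS r K hr (Fintype.card ι) x hx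
      (card_le_univ x)
    rw [mem_image]
    refine ⟨(E, u), ?_, hcl⟩
    rw [mem_product]
    refine ⟨mem_filter.mpr ⟨mem_univ _, hEc⟩, ?_⟩
    rw [mem_insert]
    rcases hu2 with h | h
    · exact Or.inr h
    · left
      by_contra hne
      have h1 : b ⊆ u := cl_le hu (empty_subset _)
      exact h ⟨b, hbS, h1.ssubset_of_ne (Ne.symm hne)⟩
  calc S.card ≤ _ := card_le_card hsub
    _ ≤ ((small ι q) ×ˢ (insert b (good S r K))).card := card_image_le
    _ = (small ι q).card * (insert b (good S r K)).card := card_product _ _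
    _ ≤ (small ι q).card * ((good S r K).card + 1) := Nat.mul_le_mul_left _ (card_insert_le _ _)

end Pool.Agent.K4H93.NB
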