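import Pool.Agent.K4H93.NB.Tame

/-!
Graphs without a given complete bipartite graph in which the neighbourhoods are unions of few sets of
strings closed under an operation which is not affine in any coordinate.
-/

set_option autoImplicit false
set_option linter.unusedSectionVars false

namespace Pool.Agent.K4H93.NB

open Finset Pool.Agent.K4H93.LRP

section

variable {ι : Type*} [Fintype ι] [DecidableEq ι]

theorem card_small_le (K : ℕ) : (small ι K).card ≤ (Fintype.card ι + 1) ^ K := by
  classical
  have h : small ι K ⊆ (univ : Finset (Fin K → Option ι)).image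
      fun g => univ.filter fun i => ∃ j, g j = some i := by
    intro Z hZ
    have hc : Z.card ≤ K := (mem_filter.mp hZ).2
    refine mem_image.mpr ⟨fun j => if h : (j : ℕ) < Z.card then
      some ((Z.equivFin.symm ⟨j, h⟩ : Z) : ι) else none, mem_univ _, ?_⟩
    ext i
    simp only [mem_filter, mem_univ, true_and]
    constructor
    · rintro ⟨j, hj⟩
      split_ifs at hj with h
      rw [Option.some_inj] at hj
      rw [← hj]
      exact (Z.equivFin.symm ⟨j, h⟩).2
    · intro hi
      refine ⟨⟨Z.equivFin ⟨i, hi⟩, lt_of_lt_of_le (Z.equivFin ⟨i, hi⟩).2 hc⟩, ?_⟩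
      have h1 : ((Z.equivFin ⟨i, hi⟩ : Fin Z.card) : ℕ) < Z.card := (Z.equivFin ⟨i, hi⟩).2
      simp only [h1, dif_pos, Fin.eta, Equiv.symm_apply_apply]
  refine (card_le_card h).trans (card_image_le.trans ?_)
  rw [card_univ, Fintype.card_fun, Fintype.card_option, Fintype.card_fin]

/-- the strings at distance at most `K` from `x` -/
def ball (x : ι → Bool) (K : ℕ) : Finset (ι → Bool) := univ.filter fun y => dist x y ≤ K

theorem card_ball_le (x : ι → Bool) (K : ℕ) : (ball x K).card ≤ (Fintype.card ι + 1) ^ K := by
  refine le_trans ?_ (card_small_le (ι := ι) K)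
  rw [← card_image_of_injective (ball x K) (dif_inj x)]
  refine card_le_card ?_
  intro Z hZ
  obtain ⟨y, hy, rfl⟩ := mem_image.mp hZ
  refine mem_filter.mpr ⟨mem_univ _, ?_⟩
  have h1 : (dif x y).card = dist x y := by
    unfold dif dist
    congr 1
    ext i
    simp only [mem_filter, mem_univ, true_and]
    exact ne_comm
  rw [h1]
  exact (mem_filter.mp hy).2

/-- counting pairs of a vertex and a string with several other strings nearby -/
theorem sum_gd {V : Type*} [Fintype V] (nb : V → Finset (ι → Bool)) (r u K : ℕ)
    (hfew : ∀ R : Finset (ι → Bool), R.card = r → (univ.filter fun v => R ⊆ nb v).card ≤ u) :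
    ∑ v, (gd (nb v) r K).card ≤ u * (Fintype.card ι + 1) ^ (K * r) * 2 ^ Fintype.card ι := by
  classical
  have h1 : ∑ v, (gd (nb v) r K).card =
      ∑ x : ι → Bool, (univ.filter fun v => x ∈ gd (nb v) r K).card := by
    have := sum_card_bipartiteAbove_eq_sum_card_bipartiteBelow
      (s := (univ : Finset V)) (t := (univ : Finset (ι → Bool))) fun v x => x ∈ gd (nb v) r K
    refine Eq.trans ?_ this
    refine sum_congr rfl fun v _ => ?_
    congr 1
    ext x
    simp [bipartiteAbove]
  rw [h1]
  have h2 : ∀ x : ι → Bool, (univ.filter fun v => x ∈ gd (nb v) r K).card ≤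
      u * (Fintype.card ι + 1) ^ (K * r) := by
    intro x
    have h3 : (univ.filter fun v => x ∈ gd (nb v) r K) ⊆
        (powersetCard r (ball x K)).biUnion fun R => univ.filter fun v => R ⊆ nb v := by
      intro v hv
      have hv1 := (mem_filter.mp (mem_filter.mp hv).2).2
      obtain ⟨R, hR1, hR2⟩ := exists_subset_card_eq hv1
      refine mem_biUnion.mpr ⟨R, mem_powersetCard.mpr ⟨?_, hR2⟩, ?_⟩
      · intro y hy
        exact mem_filter.mpr ⟨mem_univ _, (mem_filter.mp (hR1 hy)).2⟩
      · exact mem_filter.mpr ⟨mem_univ _, fun y hy => (mem_filter.mp (hR1 hy)).1⟩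
    refine (card_le_card h3).trans (card_biUnion_le.trans ?_)
    refine (sum_le_card_nsmul _ _ u fun R hR => hfew R (mem_powersetCard.mp hR).2).trans ?_
    rw [card_powersetCard, smul_eq_mul, mul_comm]
    refine Nat.mul_le_mul_left _ ((Nat.choose_le_pow _ _).trans ?_)
    rw [pow_mul]
    exact Nat.pow_le_pow_left (card_ball_le x K) r
  refine (sum_le_card_nsmul _ _ _ fun x _ => h2 x).trans ?_
  rw [card_univ, Fintype.card_fun, Fintype.card_bool, smul_eq_mul, mul_comm]

end

/-- `S` is closed under an operation which acts coordinatewise (possibly by different operations on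
bits in different coordinates), and which is idempotent in every coordinate, and affine over the field
with two elements in at most `a` coordinates. -/
def Tame (a : ℕ) {m : ℕ} (S : Set (Fin m → Bool)) : Prop :=
  ∃ (k : ℕ) (φ : Fin m → (Fin k → Bool) → Bool),
    (∀ i, φ i (fun _ => true) = true ∧ φ i (fun _ => false) = false) ∧
      {i | Affine (φ i)}.ncard ≤ a ∧ Closed S φ

/-- `S` is a union of `L` such sets. -/
def TameUnion (L a : ℕ) {m : ℕ} (S : Set (Fin m → Bool)) : Prop :=
  ∃ T : Fin L → Set (Fin m → Bool), (∀ j, Tame a (T j)) ∧ S = ⋃ j, T j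

/-- the counting lemma with some affine coordinates -/
theorem card_tame' (m a r K : ℕ) (hr : 1 ≤ r) (S : Finset (Fin m → Bool))
    (h : Tame a (↑S : Set (Fin m → Bool))) :
    S.card ≤ 2 * N (Fin m) r K ^ 2 * ((gd S r K).card + 2 ^ a) := by
  classical
  obtain ⟨k, φ, hφ, ha, hcl⟩ := h
  have hN := one_le_N (ι := Fin m) r K
  set J : Finset (Fin m) := univ.filter fun i => Affine (φ i) with hJ
  have hJa : J.card ≤ a := by
    refine le_trans (le_of_eq ?_) ha
    rw [← Set.ncard_coe_finset]
    congr 1
    ext i
    simp [hJ]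
  have hpow : 2 ^ J.card ≤ 2 ^ a := Nat.pow_le_pow_right (by norm_num) hJa
  have hone : 1 ≤ 2 * N (Fin m) r K ^ 2 := by
    have : 0 < N (Fin m) r K ^ 2 := by positivity
    omega
  by_cases hall : ∀ i, i ∈ J
  · have hJu : J = univ := eq_univ_of_forall hall
    have h1 : S.card ≤ 2 ^ J.card := by
      refine (card_le_univ S).trans (le_of_eq ?_)
      rw [hJu, Fintype.card_fun, Fintype.card_bool, card_univ]
    calc S.card ≤ 1 * 2 ^ a := by
          rw [one_mul]
          exact h1.trans hpow
      _ ≤ _ := Nat.mul_le_mul hone (Nat.le_add_left _ _)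
  · push Not at hall
    obtain ⟨i0, hi0⟩ := hall
    set f : (Fin m → Bool) → (J → Bool) := fun x i => x i with hf
    have hfib : ∀ y : J → Bool, (S.filter fun x => f x = y).card ≤
        2 * N (Fin m) r K ^ 2 * ((gd (S.filter fun x => f x = y) r K).card + 1) := by
      intro y
      refine card_tame _ (fun i => if i ∈ J then φ i0 else φ i) ?_ ?_ ?_ ?_ r K hr
      · intro v hv
        have hv1 : ∀ j, v j ∈ S := fun j => (mem_filter.mp (mem_coe.mp (hv j))).1
        have hv2 : ∀ j, ∀ i : J, v j i = y i := fun j i =>
          congrFun (mem_filter.mp (mem_coe.mp (hv j))).2 i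
        have hconst : ∀ (l : Fin m) (b : Bool), φ l (fun _ => b) = b := by
          intro l b
          cases b
          · exact (hφ l).2
          · exact (hφ l).1
        have heq : (fun i => (if i ∈ J then φ i0 else φ i) fun j => v j i) =
            fun i => φ i fun j => v j i := by
          funext i
          by_cases hi : i ∈ J
          · rw [if_pos hi]
            have h1 : (fun j => v j i) = fun _ => y ⟨i, hi⟩ := by
              funext j
              exact hv2 j ⟨i, hi⟩
            rw [h1, hconst, hconst]
          · rw [if_neg hi]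
        rw [heq]
        refine mem_coe.mpr (mem_filter.mpr ⟨mem_coe.mp (hcl v fun j => mem_coe.mpr (hv1 j)), ?_⟩)
        funext i
        rw [hf]
        simp only
        have h1 : (fun j => v j i) = fun _ => y i := by
          funext j
          exact hv2 j i
        rw [h1, hconst]
      · intro i
        by_cases hi : i ∈ J
        · rw [if_pos hi]
          exact (hφ i0).1
        · rw [if_neg hi]
          exact (hφ i).1
      · intro i
        by_cases hi : i ∈ J
        · rw [if_pos hi]
          exact (hφ i0).2
        · rw [if_neg hi]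
          exact (hφ i).2
      · intro i
        by_cases hi : i ∈ J
        · rw [if_pos hi]
          intro h
          exact hi0 (mem_filter.mpr ⟨mem_univ _, h⟩)
        · rw [if_neg hi]
          intro h
          exact hi (mem_filter.mpr ⟨mem_univ _, h⟩)
    have hsum : S.card = ∑ y : J → Bool, (S.filter fun x => f x = y).card :=
      card_eq_sum_card_fiberwise fun x _ => mem_univ (f x)
    have hgsum : ∑ y : J → Bool, (gd (S.filter fun x => f x = y) r K).card ≤
        (gd S r K).card := by
      rw [← card_biUnion]
      · refine card_le_card ?_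
        intro x hx
        obtain ⟨v, _, hv⟩ := mem_biUnion.mp hx
        exact gd_mono (filter_subset _ _) r K hv
      · intro v _ v' _ hvv'
        rw [Function.onFun, Finset.disjoint_left]
        intro x hx hx'
        have h1 := (mem_filter.mp (mem_filter.mp hx).1).2
        have h2 := (mem_filter.mp (mem_filter.mp hx').1).2
        exact hvv' (h1.symm.trans h2)
    calc S.card = ∑ y : J → Bool, (S.filter fun x => f x = y).card := hsum
      _ ≤ ∑ y : J → Bool,
          2 * N (Fin m) r K ^ 2 * ((gd (S.filter fun x => f x = y) r K).card + 1) :=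
          sum_le_sum fun y _ => hfib y
      _ = 2 * N (Fin m) r K ^ 2 *
          (∑ y : J → Bool, (gd (S.filter fun x => f x = y) r K).card + 2 ^ J.card) := by
          rw [← mul_sum, sum_add_distrib, sum_const, smul_eq_mul, mul_one, card_univ,
            Fintype.card_fun, Fintype.card_bool, Fintype.card_coe]
      _ ≤ _ := Nat.mul_le_mul_left _ (Nat.add_le_add hgsum hpow)

theorem card_union (m L a r K : ℕ) (hr : 1 ≤ r) (S : Finset (Fin m → Bool))
    (h : TameUnion L a (↑S : Set (Fin m → Bool))) :
    S.card ≤ 2 * L * N (Fin m) r K ^ 2 * ((gd S r K).card + 2 ^ a) := by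
  classical
  obtain ⟨T, hT, hS⟩ := h
  have hsub : ∀ j, T j ⊆ ↑S := fun j => by
    rw [hS]
    exact Set.subset_iUnion T j
  have h1 : S ⊆ univ.biUnion fun j => S.filter fun x => x ∈ T j := by
    intro x hx
    have hx' : x ∈ (↑S : Set (Fin m → Bool)) := hx
    rw [hS, Set.mem_iUnion] at hx'
    obtain ⟨j, hj⟩ := hx'
    exact mem_biUnion.mpr ⟨j, mem_univ _, mem_filter.mpr ⟨hx, hj⟩⟩
  refine (card_le_card h1).trans (card_biUnion_le.trans ?_)
  refine (sum_le_card_nsmul _ _ (2 * N (Fin m) r K ^ 2 * ((gd S r K).card + 2 ^ a))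
    fun j _ => ?_).trans ?_
  · have hTj : (↑(S.filter fun x => x ∈ T j) : Set (Fin m → Bool)) = T j := by
      ext x
      simp only [coe_filter, Set.mem_ofPred_eq]
      exact ⟨fun h => h.2, fun h => ⟨hsub j h, h⟩⟩
    refine (card_tame' m a r K hr (S.filter fun x => x ∈ T j) (by rw [hTj]; exact hT j)).trans ?_
    refine Nat.mul_le_mul_left _ (Nat.add_le_add_right (card_le_card ?_) _)
    exact gd_mono (filter_subset _ _) r K
  · rw [card_univ, Fintype.card_fin, smul_eq_mul]
    apply le_of_eq
    ring

/-- **The bound for graphs.** -/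
theorem graph_bound (m L a r u K : ℕ) (V : Type) [Fintype V] (lab : V → Fin m → Bool)
    (G : SimpleGraph V) (hr : 1 ≤ r) (hlab : Function.Injective lab)
    (hN : ∀ x, TameUnion L a (lab '' G.neighborSet x))
    (hfree : (completeBipartiteGraph (Fin r) (Fin u)).Free G) :
    Nat.card G.edgeSet ≤
      L * N (Fin m) r K ^ 2 * (2 ^ a * Fintype.card V + u * (m + 1) ^ (K * r) * 2 ^ m) := by
  classical
  set nb : V → Finset (Fin m → Bool) := fun v => (G.neighborFinset v).image lab with hnb
  have hnbc : ∀ v, (↑(nb v) : Set (Fin m → Bool)) = lab '' G.neighborSet v := by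
    intro v
    rw [hnb]
    simp only [coe_image, SimpleGraph.coe_neighborFinset]
  have hdeg : ∀ v, (nb v).card = G.degree v := by
    intro v
    rw [hnb]
    simp only
    rw [card_image_of_injective _ hlab, SimpleGraph.card_neighborFinset_eq_degree]
  have hfew : ∀ R : Finset (Fin m → Bool), R.card = r →
      (univ.filter fun v => R ⊆ nb v).card ≤ u := by
    intro R hR
    by_contra hcon
    push Not at hcon
    obtain ⟨U, hU1, hU2⟩ := exists_subset_card_eq hcon.le
    have hUne : 0 < (univ.filter fun v => R ⊆ nb v).card := by omega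
    obtain ⟨v0, hv0⟩ := card_pos.mp hUne
    have hR0 : R ⊆ nb v0 := (mem_filter.mp hv0).2
    have hran : ∀ x : R, ∃ w : V, lab w = x := by
      intro x
      obtain ⟨w, _, hw⟩ := mem_image.mp (hR0 x.2)
      exact ⟨w, hw⟩
    choose g hg using hran
    have hadj : ∀ (x : R) (v : U), G.Adj (g x) v := by
      intro x v
      have h1 := (mem_filter.mp (hU1 v.2)).2 x.2
      obtain ⟨w, hw1, hw2⟩ := mem_image.mp h1
      have h2 : w = g x := hlab (hw2.trans (hg x).symm)
      rw [← h2]
      exact ((SimpleGraph.mem_neighborFinset G _ _).mp hw1).symm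
    have hginj : Function.Injective g := by
      intro x y hxy
      have : lab (g x) = lab (g y) := congrArg lab hxy
      rw [hg, hg] at this
      exact Subtype.ext this
    apply hfree
    refine ⟨⟨⟨Sum.elim (fun i => g ((R.equivFinOfCardEq hR).symm i))
      (fun j => ((U.equivFinOfCardEq hU2).symm j : V)), ?_⟩, ?_⟩⟩
    · intro x y hxy
      rcases x with i | i <;> rcases y with j | j
      · simp at hxy
      · exact hadj _ _
      · exact (hadj _ _).symm
      · simp at hxy
    · intro x y hxy
      rcases x with i | i <;> rcases y with j | j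
      · simp only [RelHom.coeFn_mk, Sum.elim_inl] at hxy
        rw [(R.equivFinOfCardEq hR).symm.injective (hginj hxy)]
      · exfalso
        simp only [RelHom.coeFn_mk, Sum.elim_inl, Sum.elim_inr] at hxy
        exact G.ne_of_adj (hadj _ _) hxy
      · exfalso
        simp only [RelHom.coeFn_mk, Sum.elim_inl, Sum.elim_inr] at hxy
        exact G.ne_of_adj (hadj _ _) hxy.symm
      · simp only [RelHom.coeFn_mk, Sum.elim_inr] at hxy
        rw [(U.equivFinOfCardEq hU2).symm.injective (Subtype.ext hxy)]
  have h1 := sum_gd nb r u K hfew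
  rw [Fintype.card_fin] at h1
  have h2 : ∑ v, G.degree v ≤
      2 * L * N (Fin m) r K ^ 2 * (∑ v, (gd (nb v) r K).card + 2 ^ a * Fintype.card V) := by
    calc ∑ v, G.degree v ≤ ∑ v, 2 * L * N (Fin m) r K ^ 2 * ((gd (nb v) r K).card + 2 ^ a) := by
          refine sum_le_sum fun v _ => ?_
          rw [← hdeg]
          exact card_union m L a r K hr (nb v) (by rw [hnbc]; exact hN v)
      _ = _ := by
          rw [← mul_sum, sum_add_distrib, sum_const, card_univ, smul_eq_mul,
            mul_comm (Fintype.card V)]
  rw [SimpleGraph.sum_degrees_eq_twice_card_edges] at h2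
  have h3 : Nat.card G.edgeSet = #G.edgeFinset := by
    rw [Nat.card_eq_fintype_card, SimpleGraph.edgeFinset_card]
  rw [h3]
  have h4 : 2 * #G.edgeFinset ≤ 2 * (L * N (Fin m) r K ^ 2 *
      (2 ^ a * Fintype.card V + u * (m + 1) ^ (K * r) * 2 ^ m)) := by
    refine h2.trans ?_
    have : ∑ v, (gd (nb v) r K).card + 2 ^ a * Fintype.card V ≤
        2 ^ a * Fintype.card V + u * (m + 1) ^ (K * r) * 2 ^ m := by
      rw [add_comm]
      exact Nat.add_le_add_left h1 _
    calc _ ≤ 2 * L * N (Fin m) r K ^ 2 *
          (2 ^ a * Fintype.card V + u * (m + 1) ^ (K * r) * 2 ^ m) :=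
          Nat.mul_le_mul_left _ this
      _ = _ := by ring
  omega

end Pool.Agent.K4H93.NB
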