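import Pool.Agent.K4H93.NB.Core
import Pool.Agent.K4H93.LRP.Post

/-!
The counting lemma for sets of 0-1-vectors which are closed under a coordinatewise operation that is not
affine in any coordinate.
-/

set_option autoImplicit false
set_option linter.unusedSectionVars false

namespace Pool.Agent.K4H93.NB

open Finset Pool.Agent.K4H93.LRP

variable {ι : Type*} [Fintype ι] [DecidableEq ι]

/-- the Hamming distance -/
def dist (x y : ι → Bool) : ℕ := (univ.filter fun i => x i ≠ y i).card

/-- the members of `S` which have at least `r` members of `S` (themselves included) at distance at most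
`K` -/
def gd (S : Finset (ι → Bool)) (r K : ℕ) : Finset (ι → Bool) :=
  S.filter fun x => r ≤ (S.filter fun y => dist x y ≤ K).card

theorem gd_mono {S S' : Finset (ι → Bool)} (h : S' ⊆ S) (r K : ℕ) : gd S' r K ⊆ gd S r K := by
  intro x hx
  unfold gd at hx ⊢
  rw [mem_filter] at hx ⊢
  exact ⟨h hx.1, hx.2.trans (card_le_card (filter_subset_filter _ h))⟩

/-- the number of sets with few points -/
def N (ι : Type*) [Fintype ι] [DecidableEq ι] (r K : ℕ) : ℕ :=
  (small ι ((r - 1) * (Fintype.card ι / (K + 1) + 1))).card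

theorem one_le_N (r K : ℕ) : 1 ≤ N ι r K := by
  unfold N
  rw [Nat.one_le_iff_ne_zero, ← Nat.pos_iff_ne_zero, card_pos]
  exact ⟨∅, mem_filter.mpr ⟨mem_univ _, by simp⟩⟩

/-- the coordinates where `x` differs from `z` -/
def dif (z x : ι → Bool) : Finset ι := univ.filter fun i => x i ≠ z i

theorem dif_inj (z : ι → Bool) : Function.Injective (dif z) := by
  intro x y h
  funext i
  have h1 : (i ∈ dif z x) ↔ (i ∈ dif z y) := by rw [h]
  unfold dif at h1
  simp only [mem_filter, mem_univ, true_and] at h1
  revert h1
  cases x i <;> cases y i <;> cases z i <;> simp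

theorem dif_dist (z x y : ι → Bool) : (symmDiff (dif z x) (dif z y)).card = dist x y := by
  unfold dist
  congr 1
  ext i
  unfold dif
  simp only [mem_symmDiff, mem_filter, mem_univ, true_and]
  cases x i <;> cases y i <;> cases z i <;> simp

theorem good_image (S : Finset (ι → Bool)) (z : ι → Bool) (r K : ℕ) :
    good (S.image (dif z)) r K = (gd S r K).image (dif z) := by
  ext w
  unfold good gd
  simp only [mem_filter, mem_image]
  constructor
  · rintro ⟨⟨x, hx, rfl⟩, h⟩
    refine ⟨x, ⟨hx, ?_⟩, rfl⟩
    refine h.trans (le_of_eq ?_)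
    rw [← card_image_of_injective (S.filter fun y => dist x y ≤ K) (dif_inj z)]
    congr 1
    ext v
    simp only [mem_filter, mem_image]
    constructor
    · rintro ⟨⟨y, hy, rfl⟩, h2⟩
      rw [dif_dist] at h2
      exact ⟨y, ⟨hy, h2⟩, rfl⟩
    · rintro ⟨y, ⟨hy, h2⟩, rfl⟩
      rw [dif_dist]
      exact ⟨⟨y, hy, rfl⟩, h2⟩
  · rintro ⟨x, ⟨hx, h⟩, rfl⟩
    refine ⟨⟨x, hx, rfl⟩, ?_⟩
    refine h.trans (le_of_eq ?_)
    rw [← card_image_of_injective (S.filter fun y => dist x y ≤ K) (dif_inj z)]
    congr 1
    ext v
    simp only [mem_filter, mem_image]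
    constructor
    · rintro ⟨y, ⟨hy, h2⟩, rfl⟩
      rw [dif_dist]
      exact ⟨⟨y, hy, rfl⟩, h2⟩
    · rintro ⟨⟨y, hy, rfl⟩, h2⟩
      rw [dif_dist] at h2
      exact ⟨y, ⟨hy, h2⟩, rfl⟩

/-- sets closed under the meet with respect to a base point -/
theorem card_base (S : Finset (ι → Bool)) (z : ι → Bool)
    (hS : ∀ x ∈ S, ∀ y ∈ S, (fun i => if x i ≠ z i ∧ y i ≠ z i then !z i else z i) ∈ S) (r K : ℕ)
    (hr : 1 ≤ r) : S.card ≤ N ι r K * ((gd S r K).card + 1) := by
  have h1 := card_closed (S := S.image (dif z)) (by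
    intro a ha b hb
    obtain ⟨x, hx, rfl⟩ := mem_image.mp ha
    obtain ⟨y, hy, rfl⟩ := mem_image.mp hb
    refine mem_image.mpr ⟨_, hS x hx y hy, ?_⟩
    ext i
    unfold dif
    simp only [mem_filter, mem_univ, true_and, mem_inter]
    cases x i <;> cases y i <;> cases z i <;> simp) r K hr
  rw [good_image, card_image_of_injective _ (dif_inj z), card_image_of_injective _ (dif_inj z)] at h1
  exact h1

/-- conjunctions in some coordinates, majority in the other ones -/
theorem card_mixed (S : Finset (ι → Bool)) (I : Finset ι)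
    (hS : ∀ x ∈ S, ∀ y ∈ S, ∀ w ∈ S, (fun i => if i ∈ I then (x i && y i && w i)
      else ((x i && y i) || (y i && w i) || (x i && w i))) ∈ S) (r K : ℕ) (hr : 1 ≤ r) :
    S.card ≤ 2 * N ι r K ^ 2 * ((gd S r K).card + 1) := by
  rcases S.eq_empty_or_nonempty with h0 | ⟨x0, hx0⟩
  · rw [h0]
    simp
  set π : (ι → Bool) → ι → Bool := fun x i => if i ∈ I then false else x i with hπ
  set V := S.image π with hV
  have hN := one_le_N (ι := ι) r K
  -- fibres
  have hfib : ∀ v ∈ V, (S.filter fun x => π x = v).card ≤
      N ι r K * ((gd (S.filter fun x => π x = v) r K).card + 1) := by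
    intro v hv
    obtain ⟨x1, _, rfl⟩ := mem_image.mp hv
    refine card_base _ (π x1) ?_ r K hr
    intro x hx y hy
    rw [mem_filter] at hx hy ⊢
    have hxi : ∀ i, i ∉ I → x i = x1 i := by
      intro i hi
      have := congrFun hx.2 i
      rw [hπ] at this
      simpa [hi] using this
    have hyi : ∀ i, i ∉ I → y i = x1 i := by
      intro i hi
      have := congrFun hy.2 i
      rw [hπ] at this
      simpa [hi] using this
    have h1 : (fun i => if x i ≠ π x1 i ∧ y i ≠ π x1 i then !π x1 i else π x1 i) =
        fun i => if i ∈ I then (x i && y i && y i)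
          else ((x i && y i) || (y i && y i) || (x i && y i)) := by
      funext i
      by_cases hi : i ∈ I
      · have : π x1 i = false := by
          rw [hπ]
          simp [hi]
        rw [this, if_pos hi]
        cases x i <;> cases y i <;> simp
      · have : π x1 i = x1 i := by
          rw [hπ]
          simp [hi]
        rw [this, if_neg hi, hxi i hi, hyi i hi]
        cases x1 i <;> simp
    rw [h1]
    refine ⟨hS x hx.1 y hy.1 y hy.1, ?_⟩
    funext i
    rw [hπ]
    simp only
    by_cases hi : i ∈ I
    · simp [hi]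
    · simp only [hi, if_false]
      rw [hxi i hi, hyi i hi]
      cases x1 i <;> rfl
  -- the base
  set m : ι → Bool := fun i => decide (∀ x ∈ S, x i = true) with hm
  have hbase : ∀ T : Finset (ι → Bool), T ⊆ S → ∀ x ∈ S, ∃ y ∈ S,
      (∀ i ∈ I, (y i = true ↔ x i = true ∧ ∀ z ∈ T, z i = true)) ∧ π y = π x := by
    intro T
    induction T using Finset.induction_on with
    | empty =>
      intro _ x hx
      exact ⟨x, hx, by simp, rfl⟩
    | insert z T _ ih =>
      intro hT x hx
      obtain ⟨y, hy, h1, h2⟩ := ih ((subset_insert _ _).trans hT) x hx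
      have hz := hT (mem_insert_self z T)
      refine ⟨_, hS z hz y hy y hy, fun i hi => ?_, ?_⟩
      · simp only [hi, if_true, Bool.and_eq_true, mem_insert, forall_eq_or_imp]
        rw [h1 i hi]
        tauto
      · rw [← h2]
        funext i
        rw [hπ]
        simp only
        by_cases hi : i ∈ I
        · simp [hi]
        · simp only [hi, if_false]
          cases z i <;> cases y i <;> rfl
  set S0 := S.filter fun x => ∀ i ∈ I, x i = m i with hS0
  have hVS0 : V ⊆ S0.image π := by
    intro v hv
    obtain ⟨x, hx, rfl⟩ := mem_image.mp hv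
    obtain ⟨y, hy, h1, h2⟩ := hbase S subset_rfl x hx
    refine mem_image.mpr ⟨y, mem_filter.mpr ⟨hy, fun i hi => ?_⟩, h2⟩
    rw [Bool.eq_iff_iff, h1 i hi, hm]
    simp only [decide_eq_true_eq]
    exact ⟨fun h => h.2, fun h => ⟨h x hx, h⟩⟩
  have hVc : V.card ≤ N ι r K * ((gd S0 r K).card + 1) := by
    refine (card_le_card hVS0).trans (card_image_le.trans ?_)
    rcases S0.eq_empty_or_nonempty with h0 | ⟨z, hz⟩
    · rw [h0]
      simp
    refine card_base _ z ?_ r K hr
    intro x hx y hy
    rw [hS0, mem_filter] at hx hy hz ⊢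
    have h1 : (fun i => if x i ≠ z i ∧ y i ≠ z i then !z i else z i) =
        fun i => if i ∈ I then (z i && x i && y i)
          else ((z i && x i) || (x i && y i) || (z i && y i)) := by
      funext i
      by_cases hi : i ∈ I
      · rw [if_pos hi, hx.2 i hi, hy.2 i hi, hz.2 i hi]
        cases m i <;> simp
      · rw [if_neg hi]
        cases x i <;> cases y i <;> cases z i <;> simp
    rw [h1]
    refine ⟨hS z hz.1 x hx.1 y hy.1, fun i hi => ?_⟩
    simp only [hi, if_true]
    rw [hx.2 i hi, hy.2 i hi, hz.2 i hi]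
    cases m i <;> rfl
  have hsum : S.card = ∑ v ∈ V, (S.filter fun x => π x = v).card :=
    card_eq_sum_card_image π S
  have hgsum : ∑ v ∈ V, (gd (S.filter fun x => π x = v) r K).card ≤ (gd S r K).card := by
    rw [← card_biUnion]
    · refine card_le_card ?_
      intro x hx
      obtain ⟨v, _, hv⟩ := mem_biUnion.mp hx
      exact gd_mono (filter_subset _ _) r K hv
    · intro v _ v' _ hvv'
      rw [Function.onFun, Finset.disjoint_left]
      intro x hx hx'
      have h1 := (mem_filter.mp (mem_filter.mp hx).1).2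
      have h2 := (mem_filter.mp (mem_filter.mp hx').1).2
      exact hvv' (h1.symm.trans h2)
  have hg0 : (gd S0 r K).card ≤ (gd S r K).card := card_le_card (gd_mono (filter_subset _ _) r K)
  calc S.card = ∑ v ∈ V, (S.filter fun x => π x = v).card := hsum
    _ ≤ ∑ v ∈ V, N ι r K * ((gd (S.filter fun x => π x = v) r K).card + 1) := sum_le_sum hfib
    _ = N ι r K * (∑ v ∈ V, (gd (S.filter fun x => π x = v) r K).card + V.card) := by
        rw [← mul_sum, sum_add_distrib, sum_const, smul_eq_mul, mul_one]
    _ ≤ N ι r K * ((gd S r K).card + N ι r K * ((gd S r K).card + 1)) := by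
        refine Nat.mul_le_mul_left _ (Nat.add_le_add hgsum (hVc.trans ?_))
        exact Nat.mul_le_mul_left _ (by omega)
    _ ≤ 2 * N ι r K ^ 2 * ((gd S r K).card + 1) := by
        generalize N ι r K = a at hN ⊢
        generalize (gd S r K).card = g
        have h1 : a * g ≤ a * a * (g + 1) :=
          Nat.mul_le_mul (Nat.le_mul_of_pos_left a hN) (Nat.le_succ g)
        calc a * (g + a * (g + 1)) = a * g + a * a * (g + 1) := by ring
          _ ≤ a * a * (g + 1) + a * a * (g + 1) := Nat.add_le_add_right h1 _
          _ = 2 * a ^ 2 * (g + 1) := by ring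

/-- flipping some coordinates -/
def flp (O : Finset ι) (x : ι → Bool) : ι → Bool := fun i => if i ∈ O then !x i else x i

theorem flp_inj (O : Finset ι) : Function.Injective (flp O) := by
  intro x y h
  funext i
  have := congrFun h i
  unfold flp at this
  by_cases hi : i ∈ O
  · simpa [hi] using this
  · simpa [hi] using this

theorem flp_dist (O : Finset ι) (x y : ι → Bool) : dist (flp O x) (flp O y) = dist x y := by
  unfold dist flp
  congr 1
  ext i
  simp only [mem_filter, mem_univ, true_and]
  by_cases hi : i ∈ O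
  · simp [hi]
  · simp [hi]

theorem gd_flp (S : Finset (ι → Bool)) (O : Finset ι) (r K : ℕ) :
    (gd (S.image (flp O)) r K).card ≤ (gd S r K).card := by
  have h : gd (S.image (flp O)) r K ⊆ (gd S r K).image (flp O) := by
    intro w hw
    unfold gd at hw ⊢
    rw [mem_filter] at hw
    obtain ⟨x, hx, rfl⟩ := mem_image.mp hw.1
    refine mem_image.mpr ⟨x, mem_filter.mpr ⟨hx, hw.2.trans ?_⟩, rfl⟩
    rw [← card_image_of_injective (S.filter fun y => dist x y ≤ K) (flp_inj O)]
    refine card_le_card ?_
    intro v hv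
    rw [mem_filter] at hv
    obtain ⟨y, hy, rfl⟩ := mem_image.mp hv.1
    rw [flp_dist] at hv
    exact mem_image.mpr ⟨y, mem_filter.mpr ⟨hy, hv.2⟩, rfl⟩
  exact (card_le_card h).trans card_image_le

open Classical in
/-- **Counting lemma** for sets closed under an operation which is not affine in any coordinate -/
theorem card_tame (S : Finset (ι → Bool)) {k : ℕ} (φ : ι → (Fin k → Bool) → Bool)
    (hcl : Closed (↑S : Set (ι → Bool)) φ) (h1 : ∀ i, φ i (fun _ => true) = true)
    (h0 : ∀ i, φ i (fun _ => false) = false) (hna : ∀ i, ¬ Affine (φ i)) (r K : ℕ) (hr : 1 ≤ r) :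
    S.card ≤ 2 * N ι r K ^ 2 * ((gd S r K).card + 1) := by
  obtain ⟨t, ht1, ht2⟩ := post hcl h1 h0 (fun i ⟨j, hj⟩ => hna i (by
    refine ⟨0, fun l => if l = j then 1 else 0, fun v => ?_⟩
    rw [hj, zero_add, sum_eq_single j]
    · simp
    · intro l _ hl
      beta_reduce
      rw [if_neg hl, zero_mul]
    · intro h
      exact absurd (mem_univ _) h))
  set O : Finset ι := univ.filter fun i => ∀ a b c, t i a b c = (a || b || c) with hO
  set I : Finset ι := univ.filter fun i => (∀ a b c, t i a b c = (a && b && c)) ∨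
    (∀ a b c, t i a b c = (a || b || c)) with hI
  have key := card_mixed (S.image (flp O)) I (by
    intro a ha b hb w hw
    obtain ⟨x, hx, rfl⟩ := mem_image.mp ha
    obtain ⟨y, hy, rfl⟩ := mem_image.mp hb
    obtain ⟨v, hv, rfl⟩ := mem_image.mp hw
    refine mem_image.mpr ⟨_, mem_coe.mp (ht1 x (mem_coe.mpr hx) y (mem_coe.mpr hy) v
      (mem_coe.mpr hv)), ?_⟩
    funext i
    unfold flp
    by_cases hO' : i ∈ O
    · have hO2 := (mem_filter.mp hO').2
      have hI' : i ∈ I := mem_filter.mpr ⟨mem_univ _, Or.inr hO2⟩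
      simp only [hO', if_true, hI']
      rw [hO2]
      cases x i <;> cases y i <;> cases v i <;> rfl
    · by_cases hI' : i ∈ I
      · have hI2 := (mem_filter.mp hI').2
        have hand : ∀ a b c, t i a b c = (a && b && c) := by
          rcases hI2 with h | h
          · exact h
          · exact absurd (mem_filter.mpr ⟨mem_univ _, h⟩) hO'
        simp only [hO', if_false, hI', if_true]
        rw [hand]
      · have hmaj : Maj (t i) := by
          have hI2 : i ∉ I := hI'
          rw [hI, mem_filter] at hI2
          rcases ht2 i with h | h | h | h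
          · exact absurd ⟨mem_univ _, Or.inl h⟩ hI2
          · exact absurd ⟨mem_univ _, Or.inr h⟩ hI2
          · exact h
          · exact absurd h.1 (hna i)
        simp only [hO', if_false, hI']
        rw [hmaj]) r K hr
  rw [card_image_of_injective _ (flp_inj O)] at key
  refine key.trans (Nat.mul_le_mul_left _ ?_)
  exact Nat.add_le_add_right (gd_flp S O r K) 1

end Pool.Agent.K4H93.NB
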