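import Mathlib

/-!
Dense graphs of girth greater than four and greater than six (Wenger) on all strings of a given length,
in which all neighbourhoods are affine subspaces over the field with two elements.
-/

set_option autoImplicit false

namespace Pool.Agent.K4H93.NB.Wen

open Finset

section girth

variable {V : Type*} (G : SimpleGraph V) (col : V → Bool)

theorem girth_four (hcol : ∀ x y, G.Adj x y → col x ≠ col y)
    (h4 : ∀ a b c d, col a = false → G.Adj a b → G.Adj b c → G.Adj c d → G.Adj d a →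
      a = c ∨ b = d) :
    (4 : ℕ∞) < G.egirth := by
  refine lt_of_lt_of_le (by norm_num : (4 : ℕ∞) < 5) (SimpleGraph.le_egirth.2 ?_)
  intro a w hw
  by_contra hlt
  have hlt' : w.length < 5 := by
    rw [not_le] at hlt
    exact_mod_cast hlt
  have h3 := hw.three_le_length
  have hadj : ∀ i, i < w.length → G.Adj (w.getVert i) (w.getVert (i + 1)) :=
    fun i hi => w.adj_getVert_succ hi
  have h0 : w.getVert w.length = w.getVert 0 := by
    rw [w.getVert_length, w.getVert_zero]
  have hinj := hw.getVert_injOn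
  have hl : w.length = 3 ∨ w.length = 4 := by omega
  rcases hl with hl | hl
  · rw [hl] at h0 hadj
    have c1 : col (w.getVert 0) ≠ col (w.getVert 1) := hcol _ _ (hadj 0 (by norm_num))
    have c2 : col (w.getVert 1) ≠ col (w.getVert 2) := hcol _ _ (hadj 1 (by norm_num))
    have c3 : col (w.getVert 2) ≠ col (w.getVert 3) := hcol _ _ (hadj 2 (by norm_num))
    rw [h0] at c3
    revert c1 c2 c3
    cases col (w.getVert 0) <;> cases col (w.getVert 1) <;> cases col (w.getVert 2) <;> simp
  · rw [hl] at h0 hadj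
    have a1 : G.Adj (w.getVert 0) (w.getVert 1) := hadj 0 (by norm_num)
    have a2 : G.Adj (w.getVert 1) (w.getVert 2) := hadj 1 (by norm_num)
    have a3 : G.Adj (w.getVert 2) (w.getVert 3) := hadj 2 (by norm_num)
    have a4 : G.Adj (w.getVert 3) (w.getVert 4) := hadj 3 (by norm_num)
    have n13 : w.getVert 1 ≠ w.getVert 3 := by
      intro h
      have := hinj (by simp [hl]) (by simp [hl]) h
      omega
    have n24 : w.getVert 2 ≠ w.getVert 0 := by
      intro h
      rw [← h0] at h
      have := hinj (by simp [hl]) (by simp [hl]) h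
      omega
    rw [h0] at a4
    have c1 := hcol _ _ a1
    by_cases hc : col (w.getVert 0) = false
    · rcases h4 _ _ _ _ hc a1 a2 a3 a4 with h | h
      · exact n24 h.symm
      · exact n13 h
    · have hc' : col (w.getVert 1) = false := by
        revert c1 hc
        cases col (w.getVert 0) <;> cases col (w.getVert 1) <;> simp
      rcases h4 _ _ _ _ hc' a2 a3 a4 a1 with h | h
      · exact n13 h
      · exact n24 h

theorem girth_six (hcol : ∀ x y, G.Adj x y → col x ≠ col y)
    (h4 : ∀ a b c d, col a = false → G.Adj a b → G.Adj b c → G.Adj c d → G.Adj d a →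
      a = c ∨ b = d)
    (h6 : ∀ a b c d e f, col a = false → G.Adj a b → G.Adj b c → G.Adj c d → G.Adj d e →
      G.Adj e f → G.Adj f a → a = c ∨ a = e ∨ b = f) :
    (6 : ℕ∞) < G.egirth := by
  have hg4 := girth_four G col hcol h4
  refine lt_of_lt_of_le (by norm_num : (6 : ℕ∞) < 7) (SimpleGraph.le_egirth.2 ?_)
  intro a w hw
  by_contra hlt
  have hlt' : w.length < 7 := by
    rw [not_le] at hlt
    exact_mod_cast hlt
  have h3 : 4 < w.length := by
    have := hg4.trans_le (SimpleGraph.egirth_le_length hw)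
    exact_mod_cast this
  have hadj : ∀ i, i < w.length → G.Adj (w.getVert i) (w.getVert (i + 1)) :=
    fun i hi => w.adj_getVert_succ hi
  have h0 : w.getVert w.length = w.getVert 0 := by
    rw [w.getVert_length, w.getVert_zero]
  have hinj := hw.getVert_injOn
  have hl : w.length = 5 ∨ w.length = 6 := by omega
  rcases hl with hl | hl
  · rw [hl] at h0 hadj
    have c1 : col (w.getVert 0) ≠ col (w.getVert 1) := hcol _ _ (hadj 0 (by norm_num))
    have c2 : col (w.getVert 1) ≠ col (w.getVert 2) := hcol _ _ (hadj 1 (by norm_num))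
    have c3 : col (w.getVert 2) ≠ col (w.getVert 3) := hcol _ _ (hadj 2 (by norm_num))
    have c4 : col (w.getVert 3) ≠ col (w.getVert 4) := hcol _ _ (hadj 3 (by norm_num))
    have c5 : col (w.getVert 4) ≠ col (w.getVert 5) := hcol _ _ (hadj 4 (by norm_num))
    rw [h0] at c5
    revert c1 c2 c3 c4 c5
    cases col (w.getVert 0) <;> cases col (w.getVert 1) <;> cases col (w.getVert 2) <;>
      cases col (w.getVert 3) <;> cases col (w.getVert 4) <;> simp
  · rw [hl] at h0 hadj
    have a1 : G.Adj (w.getVert 0) (w.getVert 1) := hadj 0 (by norm_num)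
    have a2 : G.Adj (w.getVert 1) (w.getVert 2) := hadj 1 (by norm_num)
    have a3 : G.Adj (w.getVert 2) (w.getVert 3) := hadj 2 (by norm_num)
    have a4 : G.Adj (w.getVert 3) (w.getVert 4) := hadj 3 (by norm_num)
    have a5 : G.Adj (w.getVert 4) (w.getVert 5) := hadj 4 (by norm_num)
    have a6 : G.Adj (w.getVert 5) (w.getVert 6) := hadj 5 (by norm_num)
    have hne : ∀ i j, 1 ≤ i → i < j → j ≤ 6 → w.getVert i ≠ w.getVert j := by
      intro i j h1 h2 h3 h
      have := hinj (by simp only [Set.mem_ofPred_eq]; omega)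
        (by simp only [Set.mem_ofPred_eq]; omega) h
      omega
    have n24 := hne 2 4 (by norm_num) (by norm_num) (by norm_num)
    have n26 := hne 2 6 (by norm_num) (by norm_num) (by norm_num)
    have n46 := hne 4 6 (by norm_num) (by norm_num) (by norm_num)
    have n13 := hne 1 3 (by norm_num) (by norm_num) (by norm_num)
    have n15 := hne 1 5 (by norm_num) (by norm_num) (by norm_num)
    have n35 := hne 3 5 (by norm_num) (by norm_num) (by norm_num)
    rw [h0] at a6 n26 n46
    have c1 := hcol _ _ a1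
    by_cases hc : col (w.getVert 0) = false
    · rcases h6 _ _ _ _ _ _ hc a1 a2 a3 a4 a5 a6 with h | h | h
      · exact n26 h.symm
      · exact n46 h.symm
      · exact n15 h
    · have hc' : col (w.getVert 1) = false := by
        revert c1 hc
        cases col (w.getVert 0) <;> cases col (w.getVert 1) <;> simp
      rcases h6 _ _ _ _ _ _ hc' a2 a3 a4 a5 a6 a1 with h | h | h
      · exact n13 h
      · exact n15 h
      · exact n26 h

end girth

section graph

variable {F : Type} [Field F] {k : ℕ}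

/-- the point `p` is on the line `l` -/
def Inc (p l : Fin (k + 1) → F) : Prop := ∀ i : Fin k, p i.succ + l i.succ = p 0 * l i.castSucc

/-- the incidence graph -/
def H (F : Type) [Field F] (k : ℕ) : SimpleGraph ((Fin (k + 1) → F) × Bool) where
  Adj x y := (x.2 = false ∧ y.2 = true ∧ Inc x.1 y.1) ∨ (x.2 = true ∧ y.2 = false ∧ Inc y.1 x.1)
  symm := ⟨by
    intro x y h
    rcases h with ⟨h1, h2, h3⟩ | ⟨h1, h2, h3⟩
    · exact Or.inr ⟨h2, h1, h3⟩
    · exact Or.inl ⟨h2, h1, h3⟩⟩
  loopless := ⟨by
    intro x h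
    rcases h with ⟨h1, h2, _⟩ | ⟨h1, h2, _⟩
    · rw [h1] at h2
      exact absurd h2 (by simp)
    · rw [h1] at h2
      exact absurd h2 (by simp)⟩

theorem col_ne (x y : (Fin (k + 1) → F) × Bool) (h : (H F k).Adj x y) : x.2 ≠ y.2 := by
  rcases h with ⟨h1, h2, _⟩ | ⟨h1, h2, _⟩ <;> rw [h1, h2] <;> simp

theorem inc_p {p l l' : Fin (k + 1) → F} (h : Inc p l) (h' : Inc p l') (h0 : l 0 = l' 0) :
    l = l' := by
  funext i
  induction i using Fin.induction with
  | zero => exact h0
  | succ i ih =>
    have h1 := h i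
    have h2 := h' i
    rw [ih] at h1
    linear_combination h1 - h2

theorem inc_l {p p' l : Fin (k + 1) → F} (h : Inc p l) (h' : Inc p' l) (h0 : p 0 = p' 0) :
    p = p' := by
  funext i
  refine Fin.cases h0 (fun i => ?_) i
  have h1 := h i
  have h2 := h' i
  rw [h0] at h1
  linear_combination h1 - h2

theorem four {p p' l l' : Fin (k + 2) → F} (h1 : Inc p l) (h2 : Inc p' l) (h3 : Inc p' l')
    (h4 : Inc p l') : p = p' ∨ l = l' := by
  have e1 := h1 0
  have e2 := h2 0
  have e3 := h3 0
  have e4 := h4 0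
  have h0 : (Fin.castSucc (0 : Fin (k + 1))) = 0 := rfl
  rw [h0] at e1 e2 e3 e4
  have key : (p 0 - p' 0) * (l 0 - l' 0) = 0 := by linear_combination -e1 + e2 - e3 + e4
  rcases mul_eq_zero.mp key with h | h
  · exact Or.inl (inc_l h1 h2 (sub_eq_zero.mp h))
  · exact Or.inr (inc_p h1 h4 (sub_eq_zero.mp h))

theorem six {p p' p'' a b c : Fin (k + 3) → F} (h1 : Inc p a) (h2 : Inc p' a) (h3 : Inc p' b)
    (h4 : Inc p'' b) (h5 : Inc p'' c) (h6 : Inc p c) : p = p' ∨ p = p'' ∨ a = c := by
  have e1 := h1 0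
  have e2 := h2 0
  have e3 := h3 0
  have e4 := h4 0
  have e5 := h5 0
  have e6 := h6 0
  have f1 := h1 1
  have f2 := h2 1
  have f3 := h3 1
  have f4 := h4 1
  have f5 := h5 1
  have f6 := h6 1
  have h0 : (Fin.castSucc (0 : Fin (k + 2))) = 0 := rfl
  have h0' : (Fin.castSucc (1 : Fin (k + 2))) = Fin.succ (0 : Fin (k + 2)) := rfl
  rw [h0] at e1 e2 e3 e4 e5 e6
  rw [h0'] at f1 f2 f3 f4 f5 f6
  have key : (a 0 - c 0) * ((p' 0 - p 0) * (p 0 - p'' 0)) = 0 := by
    linear_combination (p' 0 + p'' 0 - p 0) * (-e1 + e6) + p'' 0 * (e2 - e3) +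
      p' 0 * (e4 - e5) + (f1 - f2 + f3 - f4 + f5 - f6)
  rcases mul_eq_zero.mp key with h | h
  · exact Or.inr (Or.inr (inc_p h1 h6 (sub_eq_zero.mp h)))
  · rcases mul_eq_zero.mp h with h | h
    · exact Or.inl (inc_l h1 h2 (sub_eq_zero.mp h).symm)
    · exact Or.inr (Or.inl (inc_l h6 h5 (sub_eq_zero.mp h)))

theorem card_inc [Fintype F] :
    Nat.card {x : (Fin (k + 1) → F) × (Fin (k + 1) → F) // Inc x.1 x.2} =
      Fintype.card F ^ (k + 2) := by
  have e : {x : (Fin (k + 1) → F) × (Fin (k + 1) → F) // Inc x.1 x.2} ≃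
      F × (Fin (k + 1) → F) :=
    { toFun := fun x => (x.1.1 0, x.1.2)
      invFun := fun y => ⟨(Fin.cons y.1 fun i => y.1 * y.2 i.castSucc - y.2 i.succ, y.2), by
        intro i
        simp⟩
      left_inv := by
        rintro ⟨⟨p, l⟩, h⟩
        apply Subtype.ext
        apply Prod.ext
        · funext i
          refine Fin.cases rfl (fun i => ?_) i
          have := h i
          simp only [Fin.cons_succ]
          linear_combination -this
        · rfl
      right_inv := by
        rintro ⟨x, l⟩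
        simp }
  rw [Nat.card_congr e, Nat.card_prod, Nat.card_eq_fintype_card, Nat.card_eq_fintype_card,
    Fintype.card_fun, Fintype.card_fin]
  ring

theorem card_H [Fintype F] : Nat.card (H F k).edgeSet = Fintype.card F ^ (k + 2) := by
  rw [← card_inc]
  refine (Nat.card_congr (Equiv.ofBijective
    (fun x : {x : (Fin (k + 1) → F) × (Fin (k + 1) → F) // Inc x.1 x.2} =>
      (⟨s((x.1.1, false), (x.1.2, true)), Or.inl ⟨rfl, rfl, x.2⟩⟩ : (H F k).edgeSet))
    ⟨?_, ?_⟩)).symm
  · intro x y hxy
    have h1 := congrArg Subtype.val hxy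
    simp only [Sym2.eq_iff, Prod.mk.injEq, and_true] at h1
    rcases h1 with ⟨h1, h2⟩ | ⟨⟨_, h2⟩, _⟩
    · exact Subtype.ext (Prod.ext h1 h2)
    · exact absurd h2 (by simp)
  · rintro ⟨e, he⟩
    induction e using Sym2.ind with
    | _ x y =>
      rcases (SimpleGraph.mem_edgeSet (H F k)).1 he with ⟨h1, h2, h3⟩ | ⟨h1, h2, h3⟩
      · refine ⟨⟨(x.1, y.1), h3⟩, Subtype.ext ?_⟩
        simp only [← h1, ← h2]
      · refine ⟨⟨(y.1, x.1), h3⟩, Subtype.ext ?_⟩
        simp only
        rw [Sym2.eq_swap]
        simp only [← h1, ← h2]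

/-- neighbourhoods are affine in characteristic two -/
theorem affine_H [CharP F 2] (x : (Fin (k + 1) → F) × Bool) (u v w : Fin (k + 1) → F) (b : Bool)
    (hu : (H F k).Adj x (u, b)) (hv : (H F k).Adj x (v, b)) (hw : (H F k).Adj x (w, b)) :
    (H F k).Adj x (u + v + w, b) := by
  have h2 : ∀ z : F, z + z = 0 := fun z => CharTwo.add_self_eq_zero z
  rcases hu with ⟨h1, hb, hu⟩ | ⟨h1, hb, hu⟩
  · refine Or.inl ⟨h1, hb, fun i => ?_⟩
    rcases hv with ⟨_, _, hv⟩ | ⟨h3, _, _⟩
    · rcases hw with ⟨_, _, hw⟩ | ⟨h3, _, _⟩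
      · have e1 := hu i
        have e2 := hv i
        have e3 := hw i
        simp only [Pi.add_apply] at *
        linear_combination e1 + e2 + e3 - h2 (x.1 i.succ)
      · rw [h1] at h3
        exact absurd h3 (by simp)
    · rw [h1] at h3
      exact absurd h3 (by simp)
  · refine Or.inr ⟨h1, hb, fun i => ?_⟩
    rcases hv with ⟨h3, _, _⟩ | ⟨_, _, hv⟩
    · rw [h1] at h3
      exact absurd h3 (by simp)
    · rcases hw with ⟨h3, _, _⟩ | ⟨_, _, hw⟩
      · rw [h1] at h3
        exact absurd h3 (by simp)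
      · have e1 := hu i
        have e2 := hv i
        have e3 := hw i
        simp only [Pi.add_apply] at *
        linear_combination e1 + e2 + e3 - h2 (x.1 i.succ)

end graph

end Pool.Agent.K4H93.NB.Wen
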